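import Pool.Agent.Y520.AR.MainLim
import Pool.Agent.Y520.AR.Bump
import Pool.Agent.Y520.AR.Stamp
import Pool.Agent.Y520.AR.Sob
import Pool.Agent.Y520.AR.Ivt
import Pool.Agent.Y534.AR.Divg
import Pool.Agent.Y534.AR.Bar
import Pool.Agent.Y534.AR.Dom
import Pool.Agent.Y270.AR.Main0
import Pool.Agent.Y270.AR.WL
import Pool.Agent.Y348.AR.Ene
import Pool.Agent.Y450.AR.Real
import Pool.Agent.Y450.AR.Grow
import Pool.Agent.Y182.AR.GR3

/-!
# Regularity of extremal solutions with arbitrary advection in dimensions two and three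

Positive answer to Q1: for `n ∈ {2, 3}`, every smooth bounded domain `Ω ⊆ ℝⁿ`, every smooth
bounded vector field `c` on its closure and every nonlinearity `f` of type (R), the extremal
solution of `-Δu + c·∇u = λ f(u)` in `Ω`, `u = 0` on `∂Ω`, is bounded.
-/

set_option autoImplicit false

open MeasureTheory Filter Topology Set Laplacian
open scoped ContDiff

namespace Pool.Agent.Results.MP_1a79d9_an.RegularInLowDimensions

/-- Nonlinearities of type (R): smooth, increasing and convex on `ℝ`, `f(0) = 1` and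
`f(t)/t → +∞` as `t → ∞`. -/
structure IsTypeR (f : ℝ → ℝ) : Prop where
  smooth : ContDiff ℝ ∞ f
  increasing : StrictMono f
  convex : ConvexOn ℝ univ f
  at_zero : f 0 = 1
  superlinear : Tendsto (fun t => f t / t) atTop atTop

/-- `Ω` is a bounded smooth domain of `ℝⁿ`: open, bounded, connected and nonempty, and near each
boundary point `Ω` is the sublevel set `{ρ < 0}` of a smooth function `ρ` with nonvanishing
gradient on `∂Ω = {ρ = 0}`. -/
structure IsSmoothBoundedDomain {n : ℕ} (Ω : Set (EuclideanSpace ℝ (Fin n))) : Prop where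
  isOpen : IsOpen Ω
  bounded : Bornology.IsBounded Ω
  connected : IsConnected Ω
  boundary : ∀ x ∈ frontier Ω, ∃ (W : Set (EuclideanSpace ℝ (Fin n)))
    (ρ : EuclideanSpace ℝ (Fin n) → ℝ), IsOpen W ∧ x ∈ W ∧ ContDiffOn ℝ ∞ ρ W ∧
      (∀ y ∈ W, ρ y = 0 → fderiv ℝ ρ y ≠ 0) ∧ (∀ y ∈ W, y ∈ Ω ↔ ρ y < 0) ∧
      (∀ y ∈ W, y ∈ frontier Ω ↔ ρ y = 0)

/-- The advection: a `C¹` vector field in `Ω`, bounded and with bounded derivative.  Every smooth
vector field on the closure of `Ω` is of this kind. -/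
def IsAdvection {n : ℕ} (Ω : Set (EuclideanSpace ℝ (Fin n)))
    (c : EuclideanSpace ℝ (Fin n) → EuclideanSpace ℝ (Fin n)) : Prop :=
  ContDiffOn ℝ 1 c Ω ∧ ∃ B : ℝ, ∀ x ∈ Ω, ‖c x‖ ≤ B ∧ ‖fderiv ℝ c x‖ ≤ B

/-- `u` is a classical solution of `-Δu + c·∇u = l f(u)` in `Ω`, `u = 0` on `∂Ω`, where
`u ∈ C²(Ω) ∩ C(closure Ω)` is nonnegative. -/
structure IsSolution {n : ℕ} (Ω : Set (EuclideanSpace ℝ (Fin n)))
    (c : EuclideanSpace ℝ (Fin n) → EuclideanSpace ℝ (Fin n)) (f : ℝ → ℝ) (l : ℝ)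
    (u : EuclideanSpace ℝ (Fin n) → ℝ) : Prop where
  contDiffOn : ContDiffOn ℝ 2 u Ω
  continuousOn : ContinuousOn u (closure Ω)
  nonneg : ∀ x ∈ Ω, 0 ≤ u x
  equation : ∀ x ∈ Ω, -(Laplacian.laplacian u x) + fderiv ℝ u x (c x) = l * f (u x)
  boundary : ∀ x ∈ frontier Ω, u x = 0

/-- `u` is the minimal (smallest) solution. -/
def IsMinimalSolution {n : ℕ} (Ω : Set (EuclideanSpace ℝ (Fin n)))
    (c : EuclideanSpace ℝ (Fin n) → EuclideanSpace ℝ (Fin n)) (f : ℝ → ℝ) (l : ℝ)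
    (u : EuclideanSpace ℝ (Fin n) → ℝ) : Prop :=
  IsSolution Ω c f l u ∧ ∀ v, IsSolution Ω c f l v → ∀ x ∈ closure Ω, u x ≤ v x

/-- `ls` is the critical parameter `λ*` and `u l` (for `0 < l < λ*`) the branch of minimal
solutions. -/
structure IsMinimalBranch {n : ℕ} (Ω : Set (EuclideanSpace ℝ (Fin n)))
    (c : EuclideanSpace ℝ (Fin n) → EuclideanSpace ℝ (Fin n)) (f : ℝ → ℝ) (ls : ℝ)
    (u : ℝ → EuclideanSpace ℝ (Fin n) → ℝ) : Prop where
  pos : 0 < ls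
  minimal : ∀ l, 0 < l → l < ls → IsMinimalSolution Ω c f l (u l)
  increasing : ∀ l l', 0 < l → l < l' → l' < ls → ∀ x ∈ closure Ω, u l x ≤ u l' x
  no_solution : ∀ l, ls < l → ¬ ∃ v, IsSolution Ω c f l v

open Pool.Agent.Y520.AR

theorem IsTypeR.typeR {f : ℝ → ℝ} (h : IsTypeR f) : TypeR f :=
  ⟨h.smooth, h.increasing, h.convex, h.at_zero, h.superlinear⟩

/-- **The extremal solution is bounded in dimensions two and three, for every advection**: the
pointwise limit `u* = lim_{l ↗ λ*} u l` of the minimal solutions exists (is finite) and is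
bounded. -/
theorem result (n : ℕ) (hn : n = 2 ∨ n = 3) (Ω : Set (EuclideanSpace ℝ (Fin n)))
    (hΩ : IsSmoothBoundedDomain Ω)
    (c : EuclideanSpace ℝ (Fin n) → EuclideanSpace ℝ (Fin n)) (hc : IsAdvection Ω c)
    (f : ℝ → ℝ) (hf : IsTypeR f) (ls : ℝ) (u : ℝ → EuclideanSpace ℝ (Fin n) → ℝ)
    (h : IsMinimalBranch Ω c f ls u) :
    ∃ (us : EuclideanSpace ℝ (Fin n) → ℝ) (C : ℝ),
      (∀ x ∈ closure Ω, Tendsto (fun l => u l x) (𝓝[<] ls) (𝓝 (us x))) ∧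
      (∀ x ∈ closure Ω, 0 ≤ us x ∧ us x ≤ C) ∧
      ∀ l, 0 < l → l < ls → ∀ x ∈ closure Ω, u l x ≤ C := by
  obtain ⟨B, hB⟩ := hc.2
  have hls := h.pos
  have hsol : ∀ l, 0 < l → l < ls → Sol Ω c f l (u l) := fun l hl hl' => by
    have := (h.minimal l hl hl').1
    exact ⟨⟨this.contDiffOn, this.continuousOn, this.nonneg, this.boundary⟩, this.equation⟩
  obtain ⟨x₀, hx₀⟩ := hΩ.connected.nonempty
  have hD : Drift Ω c B :=
    ⟨(norm_nonneg _).trans (hB x₀ hx₀).1, hc.1, fun x hx => (hB x hx).1, fun x hx => (hB x hx).2⟩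
  have hBU : S_BUMP :=
    t_BUMP (Pool.Agent.Y348.AR.t_ENE t_SOB Pool.Agent.Y534.AR.t_DIVG) t_STAMP
  have hST : S_STEP :=
    t_STEP (t_MAIN (Pool.Agent.Y270.AR.t_MAIN0 Pool.Agent.Y534.AR.t_DIVG
      Pool.Agent.Y534.AR.t_STAB)) Pool.Agent.Y450.AR.t_REAL
  obtain ⟨C₀, hC₀⟩ := bounded_branch hBU Pool.Agent.Y534.AR.t_BAR
    (Pool.Agent.Y270.AR.t_WL Pool.Agent.Y534.AR.t_DIVG) (t_IVT t_CMPR) hST
    Pool.Agent.Y450.AR.t_GR0 Pool.Agent.Y450.AR.t_GR1 Pool.Agent.Y450.AR.t_GR2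
    Pool.Agent.Y182.AR.t_GR3 Pool.Agent.Y534.AR.t_DOM hn hΩ.isOpen hΩ.bounded
    hΩ.boundary hD hf.typeR hls hsol
    (fun l l' a1 a2 a3 x hx => h.increasing l l' a1 a2 a3 x (subset_closure hx))
  set C := max C₀ 0 with hC
  have hbd : ∀ l, 0 < l → l < ls → ∀ x ∈ closure Ω, 0 ≤ u l x ∧ u l x ≤ C := by
    intro l hl hl' x hx
    by_cases hxΩ : x ∈ Ω
    · exact ⟨(hsol l hl hl').nonneg x hxΩ, (hC₀ l hl hl' x hxΩ).trans (le_max_left _ _)⟩
    · have : x ∈ frontier Ω := by rw [frontier, hΩ.isOpen.interior_eq]; exact ⟨hx, hxΩ⟩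
      rw [(hsol l hl hl').bdry x this]
      exact ⟨le_rfl, le_max_right _ _⟩
  have hlim : ∀ x ∈ closure Ω, ∃ y : ℝ, Tendsto (fun l => u l x) (𝓝[<] ls) (𝓝 y) := by
    intro x hx
    have hmono : MonotoneOn (fun l => u l x) (Ioo 0 ls) := by
      intro l hl l' hl' hll
      rcases hll.eq_or_lt with h1 | h1
      · rw [h1]
      · exact h.increasing l l' hl.1 h1 hl'.2 x hx
    have hbdd : BddAbove ((fun l => u l x) '' Ioo 0 ls) :=
      ⟨C, by rintro _ ⟨l, hl, rfl⟩; exact (hbd l hl.1 hl.2 x hx).2⟩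
    refine ⟨sSup ((fun l => u l x) '' Ioo 0 ls), ?_⟩
    have h5 := MonotoneOn.tendsto_nhdsWithin_Ioo_left (nonempty_Ioo.2 hls) hmono hbdd
    exact h5
  choose! us hus using hlim
  refine ⟨us, C, hus, fun x hx => ⟨?_, ?_⟩, fun l hl hl' x hx => (hbd l hl hl' x hx).2⟩
  · refine ge_of_tendsto (hus x hx) ?_
    filter_upwards [Ioo_mem_nhdsLT hls] with l hl
    exact (hbd l hl.1 hl.2 x hx).1
  · refine le_of_tendsto (hus x hx) ?_
    filter_upwards [Ioo_mem_nhdsLT hls] with l hl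
    exact (hbd l hl.1 hl.2 x hx).2

end Pool.Agent.Results.MP_1a79d9_an.RegularInLowDimensions
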